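import Pool.Agent.TH569.MK.ExpChain
import Pool.Agent.TH878.Mk.Dirs
import Pool.Agent.Y449.MK.Sub

set_option autoImplicit false

open Set Filter Topology Metric

namespace Pool.Agent.Q138.Mk

open Pool.Agent.W689.Mk

section
variable {X E : Type} [TopologicalSpace X] [NormedAddCommGroup E] [NormedSpace ℝ E]

/-- `v` is contracted at `x` modulo `S` by automorphisms of the affine structure of `X` -/
def ContrMod (dev : X → E) (S : Submodule ℝ E) (x : X) (v : E) : Prop :=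
  ∃ C : Set X, IsCompact C ∧ ∀ ε : ℝ, 0 < ε → ∃ (f : X ≃ₜ X) (T : E ≃ᵃ[ℝ] E),
    (∀ z, dev (f z) = T (dev z)) ∧ f x ∈ C ∧ ∃ w ∈ S, ‖T.linear v - w‖ < ε

variable {dev : X → E}

theorem ex_pull [FiniteDimensional ℝ E] {f : X ≃ₜ X} {T : E ≃ᵃ[ℝ] E} (hf : ∀ z, dev (f z) = T (dev z)) {x : X}
    {v : E} (h : ∃ y, Ex dev (f x) (T.linear v) y) : ∃ y, Ex dev x v y := by
  obtain ⟨y, U, σ, h1, h2, h3, h4, h5⟩ := h
  have hTc : Continuous T := T.toAffineMap.continuous_of_finiteDimensional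
  have hfi : ∀ z, dev (f.symm z) = T.symm (dev z) := by
    intro z
    have h6 := hf (f.symm z)
    rw [f.apply_symm_apply] at h6
    rw [h6, T.symm_apply_apply]
  have hadd : T (dev x + v) = T (dev x) + T.linear v := by
    have h6 := T.map_vadd (dev x) v
    rw [vadd_eq_add, vadd_eq_add, add_comm v] at h6
    rw [h6, add_comm]
  refine ⟨_, T ⁻¹' U, fun p => f.symm (σ (T p)), ⟨h1.isOpen.preimage hTc,
    h1.convex.affine_preimage T.toAffineMap,
    f.symm.continuous.comp_continuousOn (h1.cont.comp hTc.continuousOn fun p hp => hp), ?_⟩, ?_, ?_, ?_, rfl⟩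
  · intro p hp
    show dev (f.symm (σ (T p))) = p
    rw [hfi, h1.inv _ hp, T.symm_apply_apply]
  · show T (dev x) ∈ U
    rw [← hf]; exact h2
  · show f.symm (σ (T (dev x))) = x
    rw [← hf, h3, f.symm_apply_apply]
  · show T (dev x + v) ∈ U
    rw [hadd, ← hf]; exact h4

variable [T2Space X] [FiniteDimensional ℝ E]

theorem contr_step (hloc : IsLocalHomeomorph dev) {S : Submodule ℝ E}
    (hS : ∀ (x : X), ∀ v ∈ S, ∃ y, Ex dev x v y) {x : X} {v : E} (hv : ContrMod dev S x v) :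
    ∃ y, Ex dev x v y := by
  obtain ⟨C, hC, H⟩ := hv
  choose r hr N hN hE using fun z : X => Pool.Agent.TH569.MK.local_ball hloc hS z
  obtain ⟨t, ht, htC⟩ := hC.elim_nhds_subcover N fun z _ => hN z
  obtain ⟨ε, hε, hεt⟩ : ∃ ε : ℝ, 0 < ε ∧ ∀ z ∈ t, ε ≤ r z := by
    clear ht htC
    classical
    induction t using Finset.induction_on with
    | empty => exact ⟨1, one_pos, by simp⟩
    | insert a s ha ih =>
      obtain ⟨ε, hε, h⟩ := ih
      refine ⟨min ε (r a), lt_min hε (hr a), fun z hz => ?_⟩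
      rcases Finset.mem_insert.1 hz with rfl | hz
      · exact min_le_right _ _
      · exact (min_le_left _ _).trans (h z hz)
  obtain ⟨f, T, hf, hfx, w, hw, hlt⟩ := H ε hε
  obtain ⟨z, hz, hzN⟩ := mem_iUnion₂.1 (htC hfx)
  exact ex_pull hf (hE z (f x) hzN _ w hw (hlt.trans_le (hεt z hz)))

/-- complete directions of a chain of contracted directions -/
theorem contr_chain (hloc : IsLocalHomeomorph dev) (S : ℕ → Submodule ℝ E) (m : ℕ)
    (h0 : S 0 = ⊥) (hC : ∀ i < m, ∀ v ∈ S (i + 1), ∀ x, ContrMod dev (S i) x v) :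
    ∀ (x : X), ∀ v ∈ S m, ∃ y, Ex dev x v y := by
  induction m with
  | zero =>
    intro x v hv
    rw [h0, Submodule.mem_bot] at hv
    rw [hv]
    exact ⟨x, Pool.Agent.TH569.MK.ex_zero hloc x⟩
  | succ m ih =>
    intro x v hv
    exact contr_step hloc (ih fun i hi => hC i (by omega)) (hC m (by omega) v hv x)

end

section
variable {X Γ E : Type} [TopologicalSpace X] [T2Space X] [Group Γ] [MulAction Γ X]
  [NormedAddCommGroup E] [NormedSpace ℝ E] [FiniteDimensional ℝ E]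
  {dev : X → E} {hol : Γ →* (E ≃ᵃ[ℝ] E)}

/-- complete directions of a chain of contracted or bounded directions -/
theorem mixed_chain (D : AffData X Γ E dev hol) [SecondCountableTopology X]
    (S : ℕ → Submodule ℝ E) (m : ℕ) (h0 : S 0 = ⊥)
    (hC : ∀ i < m, (∃ C : ℝ, ∀ γ : Γ, ∀ v ∈ S (i + 1), ∃ w ∈ S i, ‖lin hol γ v - w‖ ≤ C * ‖v‖) ∨
      ∀ v ∈ S (i + 1), ∀ x, ContrMod dev (S i) x v) :
    ∀ (x : X), ∀ v ∈ S m, ∃ y, Ex dev x v y := by
  induction m with
  | zero =>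
    intro x v hv
    rw [h0, Submodule.mem_bot] at hv
    rw [hv]
    exact ⟨x, Pool.Agent.TH569.MK.ex_zero D.loc x⟩
  | succ m ih =>
    intro x v hv
    have h1 := ih fun i hi => hC i (by omega)
    rcases hC m (by omega) with h | h
    · exact Pool.Agent.TH569.MK.chain_step D h1 h x v hv
    · exact contr_step D.loc h1 (h v hv x)

/-- the operator `L` has norm at most `r` modulo `S` -/
def NormMod (S : Submodule ℝ E) (L : E → E) (r : ℝ) : Prop := ∀ v, ∃ w ∈ S, ‖L v - w‖ ≤ r * ‖v‖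

theorem exp_mod (D : AffData X Γ E dev hol) [SecondCountableTopology X] [ConnectedSpace X]
    {S : Submodule ℝ E} (hS : ∀ (x : X), ∀ v ∈ S, ∃ y, Ex dev x v y)
    (hinv : ∀ γ : Γ, ∀ v ∈ S, lin hol γ v ∈ S)
    (hE : ∀ ε : ℝ, 0 < ε → ∃ R : ℝ, ∀ γ : Γ, ¬ NormMod S (lin hol γ) R →
      NormMod S (lin hol γ⁻¹) ε) : IsHomeomorph dev := by
  let Q := EuclideanSpace ℝ (Fin (Module.finrank ℝ (E ⧸ S)))
  have hfr : Module.finrank ℝ (E ⧸ S) = Module.finrank ℝ Q := by
    simp [Q]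
  let e : (E ⧸ S) ≃ₗ[ℝ] Q := LinearEquiv.ofFinrankEq _ _ hfr
  let π0 : E →ₗ[ℝ] Q := (e : (E ⧸ S) →ₗ[ℝ] Q).comp S.mkQ
  have hπs : Function.Surjective π0 := e.surjective.comp S.mkQ_surjective
  have hker : ∀ v, π0 v = 0 ↔ v ∈ S := by
    intro v
    show e (S.mkQ v) = 0 ↔ _
    rw [LinearEquiv.map_eq_zero_iff, Submodule.mkQ_apply, Submodule.Quotient.mk_eq_zero]
  obtain ⟨s0, hs0⟩ := π0.exists_rightInverse_of_surjective (LinearMap.range_eq_top.2 hπs)
  have hs0' : ∀ q, π0 (s0 q) = q := fun q => LinearMap.congr_fun hs0 q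
  let π : E →L[ℝ] Q := LinearMap.toContinuousLinearMap π0
  let s : Q →L[ℝ] E := LinearMap.toContinuousLinearMap s0
  let lc : Γ → E →L[ℝ] E := fun γ => LinearMap.toContinuousLinearMap ((hol γ).linear : E →ₗ[ℝ] E)
  have hlc : ∀ γ v, lc γ v = lin hol γ v := fun _ _ => rfl
  let ρ : Γ → Q →L[ℝ] Q := fun γ => π.comp ((lc γ).comp s)
  have hρ : ∀ γ v, π (lin hol γ v) = ρ γ (π v) := by
    intro γ v
    show π0 (lin hol γ v) = π0 (lin hol γ (s0 (π0 v)))
    rw [← sub_eq_zero, ← map_sub]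
    have h1 : lin hol γ v - lin hol γ (s0 (π0 v)) = lin hol γ (v - s0 (π0 v)) := by
      rw [← hlc, ← hlc, ← map_sub, hlc]
    rw [h1, hker]
    apply hinv
    rw [← hker, map_sub, hs0', sub_self]
  have hnorm : ∀ (γ : Γ) (r : ℝ), 0 ≤ r → NormMod S (lin hol γ) r → ‖ρ γ‖ ≤ ‖π‖ * (r * ‖s‖) := by
    intro γ r hr h
    refine ContinuousLinearMap.opNorm_le_bound _ (by positivity) fun q => ?_
    obtain ⟨w, hw, hle⟩ := h (s q)
    have h1 : ρ γ q = π (lin hol γ (s q) - w) := by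
      rw [map_sub]
      have h2 : π w = 0 := (hker w).2 hw
      rw [h2, sub_zero]
      rfl
    rw [h1]
    calc ‖π (lin hol γ (s q) - w)‖ ≤ ‖π‖ * ‖lin hol γ (s q) - w‖ := π.le_opNorm _
      _ ≤ ‖π‖ * (r * ‖s q‖) := by gcongr
      _ ≤ ‖π‖ * (r * (‖s‖ * ‖q‖)) := by gcongr; exact s.le_opNorm q
      _ = ‖π‖ * (r * ‖s‖) * ‖q‖ := by ring
  refine Pool.Agent.TH569.MK.exp_complete D (π := π) hπs (fun x v hv => hS x v ((hker v).1 hv))
    ρ hρ fun ε hε => ?_
  have hpos : 0 < ‖π‖ * ‖s‖ + 1 := by positivity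
  obtain ⟨R, hR⟩ := hE (ε / (‖π‖ * ‖s‖ + 1)) (div_pos hε hpos)
  refine ⟨‖π‖ * (max R 0 * ‖s‖) + 1, fun γ hγ => ?_⟩
  have h1 : ¬ NormMod S (lin hol γ) R := by
    intro h2
    have h3 : NormMod S (lin hol γ) (max R 0) := fun v => by
      obtain ⟨w, hw, hle⟩ := h2 v
      exact ⟨w, hw, hle.trans (by gcongr; exact le_max_left _ _)⟩
    have h4 := hnorm γ _ (le_max_right _ _) h3
    linarith
  have h2 := hnorm γ⁻¹ _ (div_pos hε hpos).le (hR γ h1)
  refine h2.trans ?_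
  calc ‖π‖ * (ε / (‖π‖ * ‖s‖ + 1) * ‖s‖) = ε * ((‖π‖ * ‖s‖) / (‖π‖ * ‖s‖ + 1)) := by
        field_simp
    _ ≤ ε * 1 := by
        gcongr
        rw [div_le_one hpos]
        linarith
    _ = ε := mul_one ε

/-- complete directions of codimension at most one -/
theorem codim_one (D : AffData X Γ E dev hol) [SecondCountableTopology X] [ConnectedSpace X]
    {S : Submodule ℝ E} (hS : ∀ (x : X), ∀ v ∈ S, ∃ y, Ex dev x v y)
    (hr : Module.finrank ℝ E ≤ Module.finrank ℝ S + 1) : IsHomeomorph dev := by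
  by_cases htop : S = ⊤
  · obtain ⟨x0⟩ := (inferInstance : Nonempty X)
    refine homeo_of_all D.loc (x := x0) fun v => hS x0 v ?_
    rw [htop]
    exact Submodule.mem_top
  · obtain ⟨f, hf, hle⟩ := Submodule.exists_le_ker_of_lt_top _ (lt_top_iff_ne_top.2 htop)
    have hr' : Module.finrank ℝ (LinearMap.ker f) < Module.finrank ℝ E := by
      apply Submodule.finrank_lt
      intro h1
      exact hf (LinearMap.ker_eq_top.1 h1)
    have heq := Submodule.eq_of_le_of_finrank_le hle (by omega)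
    let φ : E →L[ℝ] ℝ := LinearMap.toContinuousLinearMap f
    have hφ : φ ≠ 0 := by
      intro h1
      apply hf
      ext v
      exact congrArg (fun g : E →L[ℝ] ℝ => g v) h1
    refine Pool.Agent.TH878.Mk.complete_of_hyperplane D hφ fun v hv x => hS x v ?_
    rw [heq]
    exact hv

end

end Pool.Agent.Q138.Mk
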