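import Mathlib

set_option autoImplicit false

open Polynomial

namespace Pool.Agent.Q138.Mk

theorem ms_one_le (s : Multiset ℝ) : (∀ x ∈ s, 1 ≤ x) → 1 ≤ s.prod ∧ (s.prod = 1 → ∀ x ∈ s, x = 1) := by
  induction s using Multiset.induction_on with
  | empty => intro _; simp
  | cons a s ih =>
    intro h
    have ha : 1 ≤ a := h a (Multiset.mem_cons_self a s)
    obtain ⟨h1, h2⟩ := ih fun x hx => h x (Multiset.mem_cons_of_mem hx)
    rw [Multiset.prod_cons]
    refine ⟨by nlinarith, fun h3 => ?_⟩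
    have h4 : a = 1 := by nlinarith
    have h5 : s.prod = 1 := by rw [h4, one_mul] at h3; exact h3
    intro x hx
    rcases Multiset.mem_cons.1 hx with rfl | hx
    · exact h4
    · exact h2 h5 x hx

theorem ms_norm (s : Multiset ℂ) : ‖s.prod‖ = (s.map fun z => ‖z‖).prod := by
  induction s using Multiset.induction_on with
  | empty => simp
  | cons a s ih => rw [Multiset.prod_cons, norm_mul, Multiset.map_cons, Multiset.prod_cons, ih]

theorem ms_scale (s : Multiset ℂ) (f : ℂ → ℝ) (t : ℝ) :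
    t ^ s.card * (s.map f).prod = (s.map fun z => t * f z).prod := by
  induction s using Multiset.induction_on with
  | empty => simp
  | cons a s ih =>
    rw [Multiset.map_cons, Multiset.prod_cons, Multiset.map_cons, Multiset.prod_cons, ← ih,
      Multiset.card_cons, pow_succ]
    ring

variable {E : Type} [NormedAddCommGroup E] [NormedSpace ℝ E] [FiniteDimensional ℝ E]

/-- all complex eigenvalues have nonnegative real part -/
def RightHalf (A : E →ₗ[ℝ] E) : Prop :=
  ∀ z : ℂ, (A.charpoly.map (algebraMap ℝ ℂ)).IsRoot z → 0 ≤ z.re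

theorem abs_eval (A : E →ₗ[ℝ] E) (t : ℝ) :
    |A.charpoly.eval (-t)| = ((A.charpoly.map (algebraMap ℝ ℂ)).roots.map fun z => ‖(t : ℂ) + z‖).prod := by
  have h1 : (A.charpoly.map (algebraMap ℝ ℂ)).Splits := IsAlgClosed.splits _
  have h2 : (A.charpoly.map (algebraMap ℝ ℂ)).Monic := (A.charpoly_monic).map _
  have h3 := h1.eq_prod_roots_of_monic h2
  have h4 : (A.charpoly.map (algebraMap ℝ ℂ)).eval (((-t : ℝ) : ℂ)) = ((A.charpoly.eval (-t) : ℝ) : ℂ) := by
    rw [Polynomial.eval_map_algebraMap]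
    exact Polynomial.aeval_algebraMap_apply ℂ (-t) A.charpoly
  have h5 : ‖(A.charpoly.map (algebraMap ℝ ℂ)).eval (((-t : ℝ) : ℂ))‖ = |A.charpoly.eval (-t)| := by
    rw [h4]; exact Complex.norm_real _
  rw [← h5]
  conv_lhs => rw [h3]
  rw [Polynomial.eval_multiset_prod, Multiset.map_map, ms_norm, Multiset.map_map]
  congr 1
  refine Multiset.map_congr rfl fun z _ => ?_
  simp only [Function.comp_apply, eval_sub, eval_X, eval_C]
  rw [← norm_neg]
  congr 1
  push_cast
  ring

theorem card_roots (A : E →ₗ[ℝ] E) :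
    (A.charpoly.map (algebraMap ℝ ℂ)).roots.card = Module.finrank ℝ E := by
  have h1 : (A.charpoly.map (algebraMap ℝ ℂ)).Splits := IsAlgClosed.splits _
  rw [← h1.natDegree_eq_card_roots, (A.charpoly_monic).natDegree_map, A.charpoly_natDegree]

theorem det_add (A : E →ₗ[ℝ] E) (s : ℝ) :
    |LinearMap.det (s • LinearMap.id + A)| = |A.charpoly.eval (-s)| := by
  rw [LinearMap.eval_charpoly]
  have h1 : (algebraMap ℝ (Module.End ℝ E)) (-s) - A = (-1 : ℝ) • (s • LinearMap.id + A) := by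
    ext v
    simp [Module.algebraMap_end_apply]
    abel
  rw [h1, LinearMap.det_smul, abs_mul, abs_pow, abs_neg, abs_one, one_pow, one_mul]

/-- the absolute value of `det (1 + t A)` -/
theorem abs_det' (A : E →ₗ[ℝ] E) {t : ℝ} (ht : t ≠ 0) :
    |LinearMap.det (LinearMap.id + t • A)| =
      ((A.charpoly.map (algebraMap ℝ ℂ)).roots.map fun z => ‖1 + (t : ℂ) * z‖).prod := by
  have h1 : LinearMap.id + t • A = t • (t⁻¹ • LinearMap.id + A) := by
    ext v
    simp [smul_smul, mul_inv_cancel₀ ht]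
  rw [h1, LinearMap.det_smul, abs_mul, det_add, abs_eval, abs_pow,
    ← card_roots A, ms_scale]
  congr 1
  refine Multiset.map_congr rfl fun z _ => ?_
  have h2 : 1 + (t : ℂ) * z = (t : ℂ) * (((t⁻¹ : ℝ) : ℂ) + z) := by
    push_cast
    have : (t : ℂ) ≠ 0 := by exact_mod_cast ht
    field_simp
  rw [h2, norm_mul, Complex.norm_real, Real.norm_eq_abs]

theorem abs_det (A : E →ₗ[ℝ] E) {t : ℝ} (ht : 0 < t) :
    |LinearMap.det (LinearMap.id + t • A)| =
      ((A.charpoly.map (algebraMap ℝ ℂ)).roots.map fun z => ‖1 + (t : ℂ) * z‖).prod :=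
  abs_det' A ht.ne'

/-- if no eigenvalue lies in the disc with centre `c` and radius `|c|` -/
theorem disc (A : E →ₗ[ℝ] E) {c : ℝ} (hc : c ≠ 0)
    (h : ∀ z : ℂ, (A.charpoly.map (algebraMap ℝ ℂ)).IsRoot z → |c| ≤ ‖z - c‖) :
    1 ≤ |LinearMap.det (LinearMap.id + (-c⁻¹) • A)| ∧
      (|LinearMap.det (LinearMap.id + (-c⁻¹) • A)| = 1 →
        ∀ z : ℂ, (A.charpoly.map (algebraMap ℝ ℂ)).IsRoot z → ‖z - c‖ = |c|) := by
  rw [abs_det' A (neg_ne_zero.2 (inv_ne_zero hc))]
  have hc' : (0 : ℝ) < |c| := abs_pos.2 hc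
  have h0 : ∀ z : ℂ, ‖1 + ((-c⁻¹ : ℝ) : ℂ) * z‖ = ‖z - c‖ / |c| := by
    intro z
    have h1 : 1 + ((-c⁻¹ : ℝ) : ℂ) * z = -(z - c) / (c : ℂ) := by
      push_cast
      have : (c : ℂ) ≠ 0 := by exact_mod_cast hc
      field_simp
      ring
    rw [h1, norm_div, norm_neg, Complex.norm_real, Real.norm_eq_abs]
  have h1 : ∀ x ∈ ((A.charpoly.map (algebraMap ℝ ℂ)).roots.map
      fun z => ‖1 + ((-c⁻¹ : ℝ) : ℂ) * z‖), 1 ≤ x := by
    intro x hx
    obtain ⟨z, hz, rfl⟩ := Multiset.mem_map.1 hx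
    rw [h0, one_le_div hc']
    exact h z (Polynomial.isRoot_of_mem_roots hz)
  refine ⟨(ms_one_le _ h1).1, fun h2 z hz => ?_⟩
  have h3 := (ms_one_le _ h1).2 h2 _ (Multiset.mem_map_of_mem _
    ((Polynomial.mem_roots ((A.charpoly_monic).map _).ne_zero).2 hz))
  rw [h0, div_eq_one_iff_eq hc'.ne'] at h3
  exact h3

theorem re_of_circle {z : ℂ} {c : ℝ} (h : ‖z - c‖ = |c|) : 0 ≤ c * z.re := by
  have h1 : ‖z - c‖ ^ 2 = (z.re - c) ^ 2 + z.im ^ 2 := by
    rw [← Complex.normSq_eq_norm_sq, Complex.normSq_apply]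
    simp
    ring
  rw [h, sq_abs] at h1
  nlinarith [sq_nonneg z.re, sq_nonneg z.im]

theorem root_neg {A : E →ₗ[ℝ] E} {z : ℂ} (hz : ((-A).charpoly.map (algebraMap ℝ ℂ)).IsRoot z) :
    (A.charpoly.map (algebraMap ℝ ℂ)).IsRoot (-z) := by
  have h1 : ∀ x : ℝ, (-A).charpoly.eval x = (-1) ^ Module.finrank ℝ E * (A.charpoly.comp (-X)).eval x := by
    intro x
    rw [LinearMap.eval_charpoly, eval_comp, eval_neg, eval_X, LinearMap.eval_charpoly]
    have h2 : (algebraMap ℝ (Module.End ℝ E)) x - -A = (-1 : ℝ) • ((algebraMap ℝ (Module.End ℝ E)) (-x) - A) := by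
      ext v
      simp [Module.algebraMap_end_apply]
      abel
    rw [h2, LinearMap.det_smul]
  have h3 : (-A).charpoly = C ((-1) ^ Module.finrank ℝ E) * A.charpoly.comp (-X) :=
    Polynomial.funext fun x => by rw [h1 x, eval_mul, eval_C]
  rw [h3, Polynomial.map_mul, Polynomial.map_C, Polynomial.map_comp, Polynomial.IsRoot, eval_mul,
    eval_C, mul_eq_zero] at hz
  rcases hz with h | h
  · exfalso
    rw [map_pow, map_neg, map_one] at h
    exact pow_ne_zero _ (neg_ne_zero.2 one_ne_zero) h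
  · rw [eval_comp, Polynomial.map_neg, Polynomial.map_X, eval_neg, eval_X] at h
    exact h

theorem one_le_norm {z : ℂ} (hz : 0 ≤ z.re) {t : ℝ} (ht : 0 < t) :
    1 ≤ ‖1 + (t : ℂ) * z‖ ∧ (‖1 + (t : ℂ) * z‖ = 1 → z = 0) := by
  have h1 : ‖1 + (t : ℂ) * z‖ ^ 2 = 1 + 2 * t * z.re + t ^ 2 * (z.re ^ 2 + z.im ^ 2) := by
    rw [← Complex.normSq_eq_norm_sq, Complex.normSq_apply]
    simp
    ring
  have h0 := norm_nonneg (1 + (t : ℂ) * z)
  have h2 : 0 ≤ 2 * t * z.re := by positivity
  have h3 : 0 ≤ t ^ 2 * (z.re ^ 2 + z.im ^ 2) := by positivity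
  refine ⟨by nlinarith, fun h4 => ?_⟩
  rw [h4] at h1
  have h5 : t ^ 2 * (z.re ^ 2 + z.im ^ 2) = 0 := by linarith
  have h6 : z.re ^ 2 + z.im ^ 2 = 0 := by
    rcases mul_eq_zero.1 h5 with h | h
    · exact absurd h (pow_pos ht 2).ne'
    · exact h
  have h7 : z.re = 0 := by nlinarith [sq_nonneg z.re, sq_nonneg z.im]
  have h8 : z.im = 0 := by nlinarith [sq_nonneg z.re, sq_nonneg z.im]
  exact Complex.ext h7 h8

/-- eigenvalues in the right half plane make the determinant large -/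
theorem one_le_det {A : E →ₗ[ℝ] E} (hA : RightHalf A) : 1 ≤ LinearMap.det (LinearMap.id + A) := by
  have h1 : ∀ t : ℝ, 0 < t → 1 ≤ |LinearMap.det (LinearMap.id + t • A)| := by
    intro t ht
    rw [abs_det A ht]
    refine (ms_one_le _ fun x hx => ?_).1
    obtain ⟨z, hz, rfl⟩ := Multiset.mem_map.1 hx
    exact (one_le_norm (hA z (Polynomial.isRoot_of_mem_roots hz)) ht).1
  have hc : Continuous fun t : ℝ => LinearMap.det (LinearMap.id + t • A) := by
    have h2 : Continuous (fun f : E →L[ℝ] E => f.det) := ContinuousLinearMap.continuous_det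
    have h3 : Continuous fun t : ℝ => (ContinuousLinearMap.id ℝ E + t • (LinearMap.toContinuousLinearMap A)) := by
      fun_prop
    exact h2.comp h3
  have h4 := h1 1 one_pos
  rw [one_smul] at h4
  by_contra hcon
  have h5 : LinearMap.det (LinearMap.id + A) ≤ -1 := by
    rcases abs_cases (LinearMap.det (LinearMap.id + A)) with ⟨h, _⟩ | ⟨h, _⟩ <;> linarith
  have h6 : (0 : ℝ) ∈ Set.Icc (LinearMap.det (LinearMap.id + (1 : ℝ) • A))
      (LinearMap.det (LinearMap.id + (0 : ℝ) • A)) := by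
    rw [one_smul, zero_smul, add_zero, LinearMap.det_id]
    exact ⟨by linarith, by norm_num⟩
  obtain ⟨t, ht, ht0⟩ := intermediate_value_Icc' (zero_le_one) hc.continuousOn h6
  beta_reduce at ht0
  rcases ht.1.eq_or_lt with h | h
  · rw [← h, zero_smul, add_zero, LinearMap.det_id] at ht0
    exact one_ne_zero ht0
  · have := h1 t h
    rw [ht0, abs_zero] at this
    linarith

theorem nilpotent_of_det {A : E →ₗ[ℝ] E} (hA : RightHalf A)
    (h : LinearMap.det (LinearMap.id + A) = 1) : IsNilpotent A := by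
  have h1 := abs_det A (t := 1) one_pos
  rw [one_smul, h, abs_one] at h1
  have h2 : ∀ z ∈ (A.charpoly.map (algebraMap ℝ ℂ)).roots, z = 0 := by
    intro z hz
    have h3 := (ms_one_le (((A.charpoly.map (algebraMap ℝ ℂ)).roots.map fun z => ‖1 + ((1 : ℝ) : ℂ) * z‖))
      (fun x hx => by
        obtain ⟨z, hz, rfl⟩ := Multiset.mem_map.1 hx
        exact (one_le_norm (hA z (Polynomial.isRoot_of_mem_roots hz)) one_pos).1)).2 h1.symm
    exact (one_le_norm (hA z (Polynomial.isRoot_of_mem_roots hz)) one_pos).2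
      (h3 _ (Multiset.mem_map_of_mem _ hz))
  have h3 : (A.charpoly.map (algebraMap ℝ ℂ)).Splits := IsAlgClosed.splits _
  have h4 := h3.eq_prod_roots_of_monic ((A.charpoly_monic).map _)
  have h5 : (A.charpoly.map (algebraMap ℝ ℂ)).roots.map (fun x => (X - C x : ℂ[X])) =
      (A.charpoly.map (algebraMap ℝ ℂ)).roots.map (fun _ => (X : ℂ[X])) :=
    Multiset.map_congr rfl fun z hz => by rw [h2 z hz, map_zero, sub_zero]
  rw [h5, Multiset.map_const', Multiset.prod_replicate, card_roots] at h4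
  rw [LinearMap.isNilpotent_iff_charpoly]
  have h6 : Function.Injective (Polynomial.map (algebraMap ℝ ℂ)) :=
    Polynomial.map_injective _ (algebraMap ℝ ℂ).injective
  apply h6
  rw [h4, Polynomial.map_pow, Polynomial.map_X]

/-- if `det (1 + t A) = 1` for all `t` then `A` is nilpotent -/
theorem nilpotent_of_all {A : E →ₗ[ℝ] E}
    (h : ∀ t : ℝ, LinearMap.det (LinearMap.id + t • A) = 1) : IsNilpotent A := by
  rw [LinearMap.isNilpotent_iff_charpoly]
  refine Polynomial.eq_of_infinite_eval_eq _ _ ?_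
  refine Set.Infinite.mono (s := Set.Ioi 0) (fun s hs => ?_) (Set.Ioi_infinite _)
  show A.charpoly.eval s = (X ^ Module.finrank ℝ E : ℝ[X]).eval s
  have hs' : s ≠ 0 := (Set.mem_Ioi.1 hs).ne'
  rw [LinearMap.eval_charpoly, eval_pow, eval_X]
  have h1 : (algebraMap ℝ (Module.End ℝ E)) s - A = s • (LinearMap.id + (-s⁻¹) • A) := by
    ext v
    simp [Module.algebraMap_end_apply, smul_smul, mul_inv_cancel₀ hs']
    abel
  rw [h1, LinearMap.det_smul, h, mul_one]

/-- `A` is monotone for some inner product -/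
def Mono (A : E →ₗ[ℝ] E) : Prop :=
  ∃ B : E →ₗ[ℝ] E →ₗ[ℝ] ℝ, (∀ v w, B v w = B w v) ∧ (∀ v, v ≠ 0 → 0 < B v v) ∧
    ∀ v, 0 ≤ B (A v) v

omit [FiniteDimensional ℝ E] in
theorem Mono.ker {A : E →ₗ[ℝ] E} (hA : Mono A) {v : E} (h : A (A v) = 0) : A v = 0 := by
  obtain ⟨B, h1, h2, h3⟩ := hA
  by_contra h0
  have h4 := h2 _ h0
  have h5 : ∀ s : ℝ, 0 ≤ B (A v) v + s * B (A v) (A v) := by
    intro s
    have h6 := h3 (v + s • A v)
    have h7 : A (v + s • A v) = A v := by rw [map_add, map_smul, h, smul_zero, add_zero]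
    rw [h7, map_add, map_smul, smul_eq_mul] at h6
    exact h6
  have h6 := h5 (-(B (A v) v + 1) / B (A v) (A v))
  rw [div_mul_cancel₀ _ h4.ne'] at h6
  linarith

theorem Mono.eq_zero {A : E →ₗ[ℝ] E} (hA : Mono A) (h : IsNilpotent A) : A = 0 := by
  obtain ⟨k, hk⟩ := h
  have h1 : ∀ k : ℕ, A ^ (k + 1) = 0 → A = 0 := by
    intro k
    induction k with
    | zero => intro h; simpa using h
    | succ k ih =>
      intro h
      apply ih
      ext v
      have h2 : (A ^ (k + 1 + 1)) v = 0 := by rw [h]; rfl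
      rw [pow_succ', pow_succ'] at h2
      have h3 : A (A ((A ^ k) v)) = 0 := h2
      have h4 := hA.ker h3
      rw [pow_succ']
      exact h4
  rcases k with _ | k
  · rw [pow_zero] at hk
    ext v
    have : (1 : Module.End ℝ E) v = 0 := by rw [hk]; rfl
    have h5 : v = 0 := this
    rw [h5]; simp
  · exact h1 k hk

/-- a complex eigenvalue has a complex eigenvector -/
theorem exists_eigen {A : E →ₗ[ℝ] E} {z : ℂ} (hz : (A.charpoly.map (algebraMap ℝ ℂ)).IsRoot z) :
    ∃ u w : E, (u ≠ 0 ∨ w ≠ 0) ∧ A u = z.re • u - z.im • w ∧ A w = z.im • u + z.re • w := by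
  let b := Module.finBasis ℝ E
  let M := LinearMap.toMatrix b b A
  have h1 : A.charpoly = M.charpoly := (LinearMap.charpoly_toMatrix A b).symm
  have h2 : (M.map (algebraMap ℝ ℂ)).charpoly = A.charpoly.map (algebraMap ℝ ℂ) := by
    rw [Matrix.charpoly_map, h1]
  rw [← h2, Polynomial.IsRoot, Matrix.eval_charpoly] at hz
  obtain ⟨v, hv, hv0⟩ := Matrix.exists_mulVec_eq_zero_iff.2 hz
  rw [Matrix.sub_mulVec, sub_eq_zero] at hv0
  have h3 : ∀ i, z * v i = ∑ j, (M i j : ℂ) * v j := by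
    intro i
    have h4 := congrFun hv0 i
    rw [Matrix.scalar_apply, Matrix.mulVec_diagonal] at h4
    rw [h4]
    simp [Matrix.mulVec, dotProduct]
  have hA : ∀ (x : Fin (Module.finrank ℝ E) → ℝ),
      A (∑ j, x j • b j) = ∑ i, (∑ j, M i j * x j) • b i := by
    intro x
    rw [map_sum]
    have h5 : ∀ j, A (b j) = ∑ i, M i j • b i := by
      intro j
      have := b.sum_repr (A (b j))
      rw [← this]
      refine Finset.sum_congr rfl fun i _ => ?_
      show _ = (LinearMap.toMatrix b b A) i j • b i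
      rw [LinearMap.toMatrix_apply]
    simp_rw [map_smul, h5, Finset.smul_sum, Finset.sum_smul, smul_smul]
    rw [Finset.sum_comm]
    refine Finset.sum_congr rfl fun i _ => Finset.sum_congr rfl fun j _ => ?_
    rw [mul_comm]
  have hre : ∀ i, ∑ j, M i j * (v j).re = z.re * (v i).re - z.im * (v i).im := by
    intro i
    have h5 := congrArg Complex.re (h3 i)
    rw [Complex.mul_re, Complex.re_sum] at h5
    rw [h5]
    refine Finset.sum_congr rfl fun j _ => ?_
    rw [Complex.mul_re, Complex.ofReal_re, Complex.ofReal_im]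
    ring
  have him : ∀ i, ∑ j, M i j * (v j).im = z.re * (v i).im + z.im * (v i).re := by
    intro i
    have h5 := congrArg Complex.im (h3 i)
    rw [Complex.mul_im, Complex.im_sum] at h5
    rw [h5]
    refine Finset.sum_congr rfl fun j _ => ?_
    rw [Complex.mul_im, Complex.ofReal_re, Complex.ofReal_im]
    ring
  refine ⟨∑ j, (v j).re • b j, ∑ j, (v j).im • b j, ?_, ?_, ?_⟩
  · by_contra hcon
    push Not at hcon
    apply hv
    have e1 := fun i => Fintype.linearIndependent_iff.1 b.linearIndependent _ hcon.1 i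
    have e2 := fun i => Fintype.linearIndependent_iff.1 b.linearIndependent _ hcon.2 i
    funext i
    exact Complex.ext (e1 i) (e2 i)
  · rw [hA, Finset.smul_sum, Finset.smul_sum, ← Finset.sum_sub_distrib]
    refine Finset.sum_congr rfl fun i _ => ?_
    rw [hre, sub_smul, mul_smul, mul_smul]
  · rw [hA, Finset.smul_sum, Finset.smul_sum, ← Finset.sum_add_distrib]
    refine Finset.sum_congr rfl fun i _ => ?_
    rw [him, add_smul, mul_smul, mul_smul]
    exact add_comm _ _

theorem Mono.rightHalf {A : E →ₗ[ℝ] E} (hA : Mono A) : RightHalf A := by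
  intro z hz
  obtain ⟨u, w, h0, h1, h2⟩ := exists_eigen hz
  obtain ⟨B, hs, hp, hm⟩ := hA
  have h3 := hm u
  have h4 := hm w
  rw [h1, map_sub, map_smul, map_smul, LinearMap.sub_apply, LinearMap.smul_apply,
    LinearMap.smul_apply, smul_eq_mul, smul_eq_mul] at h3
  rw [h2, map_add, map_smul, map_smul, LinearMap.add_apply, LinearMap.smul_apply,
    LinearMap.smul_apply, smul_eq_mul, smul_eq_mul] at h4
  have h5 := hs u w
  have h6 : 0 ≤ B u u := by
    by_cases h : u = 0
    · rw [h]; simp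
    · exact (hp u h).le
  have h7 : 0 ≤ B w w := by
    by_cases h : w = 0
    · rw [h]; simp
    · exact (hp w h).le
  have h8 : 0 < B u u + B w w := by
    rcases h0 with h | h
    · have := hp u h; linarith
    · have := hp w h; linarith
  have h9 : 0 ≤ z.re * (B u u + B w w) := by
    rw [h5] at h4
    rw [mul_add]
    linarith
  exact nonneg_of_mul_nonneg_left h9 h8

end Pool.Agent.Q138.Mk
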