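import Pool.Agent.Q138.Mk.Spec
import Pool.Agent.W689.Mk.Av

set_option autoImplicit false

open Set Filter Topology MeasureTheory Metric Asymptotics
open scoped ENNReal NNReal

namespace Pool.Agent.Q138.Mk

open Pool.Agent.W689.Mk

section area
variable {E : Type} [NormedAddCommGroup E] [NormedSpace ℝ E] [FiniteDimensional ℝ E]
  [MeasurableSpace E] [BorelSpace E] (lam : Measure E) [lam.IsAddHaarMeasure]

open Classical in
/-- radius of injectivity of linear approximations -/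
noncomputable def rad (A : E →L[ℝ] E) : ℝ≥0 :=
  if h : ∃ B : E ≃L[ℝ] E, (B : E →L[ℝ] E) = A then
    (‖(h.choose.symm : E →L[ℝ] E)‖₊ + 1)⁻¹ else 1

theorem rad_ne (A : E →L[ℝ] E) : rad A ≠ 0 := by
  unfold rad
  split_ifs with h
  · positivity
  · exact one_ne_zero

theorem inj_of_rad {f : E → E} {A : E →L[ℝ] E} {s : Set E} (hA : A.det ≠ 0)
    (h : ApproximatesLinearOn f A s (rad A)) : InjOn f s := by
  have h0 : ∃ B : E ≃L[ℝ] E, (B : E →L[ℝ] E) = A :=
    ⟨A.toContinuousLinearEquivOfDetNeZero hA, ContinuousLinearMap.coe_toContinuousLinearEquivOfDetNeZero _ _⟩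
  unfold rad at h
  rw [dif_pos h0] at h
  have h1 := h0.choose_spec
  set B := h0.choose with hB
  rw [← h1] at h
  refine h.injOn ?_
  by_cases hs : Subsingleton E
  · exact Or.inl hs
  · right
    have hs' : Nontrivial E := not_subsingleton_iff_nontrivial.1 hs
    have hp : 0 < ‖(B.symm : E →L[ℝ] E)‖₊ := B.nnnorm_symm_pos
    have h2 : ‖(B.symm : E →L[ℝ] E)‖₊ < ‖(B.symm : E →L[ℝ] E)‖₊ + 1 := lt_add_of_pos_right _ one_pos
    exact inv_strictAnti₀ hp h2

/-- the set where the derivative is nonsingular is null when the image is null -/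
theorem null_of_image {g : E → E} {g' : E → E →L[ℝ] E} {s : Set E} (hs : MeasurableSet s)
    (hg : ∀ x ∈ s, HasFDerivWithinAt g (g' x) s x) (hdet : ∀ x ∈ s, (g' x).det ≠ 0)
    (himg : lam (g '' s) = 0) : lam s = 0 := by
  rcases s.eq_empty_or_nonempty with rfl | hne
  · exact measure_empty
  obtain ⟨t, A, ht1, ht2, ht3, ht4⟩ :=
    exists_closed_cover_approximatesLinearOn_of_hasFDerivWithinAt g s g' hg rad rad_ne
  have h1 : ∀ n, lam (s ∩ t n) = 0 := by
    intro n
    obtain ⟨y, hy, hAy⟩ := ht4 hne n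
    have hinj : InjOn g (s ∩ t n) := inj_of_rad (by rw [hAy]; exact hdet y hy) (ht3 n)
    have hm : MeasurableSet (s ∩ t n) := hs.inter (ht1 n).measurableSet
    have h2 := lintegral_abs_det_fderiv_eq_addHaar_image lam hm
      (fun x hx => (hg x hx.1).mono inter_subset_left) hinj
    have h3 : lam (g '' (s ∩ t n)) = 0 := measure_mono_null (image_mono inter_subset_left) himg
    rw [h3] at h2
    rw [setLIntegral_eq_zero_iff' hm (aemeasurable_ofReal_abs_det_fderivWithin lam hm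
      (fun x hx => (hg x hx.1).mono inter_subset_left))] at h2
    refine measure_mono_null (fun x hx => ?_) (ae_iff.1 h2)
    intro h5
    have h6 := ENNReal.ofReal_eq_zero.1 (h5 hx)
    exact hdet x hx.1 (abs_nonpos_iff.1 h6)
  refine measure_mono_null (fun x hx => ?_) (measure_iUnion_null h1)
  obtain ⟨n, hn⟩ := mem_iUnion.1 (ht2 hx)
  exact mem_iUnion.2 ⟨n, hx, hn⟩

theorem det_ae {g : E → E} {U : Set E} (hU : IsOpen U) {L : ℝ≥0} (hg : LipschitzOnWith L g U)
    (himg : lam (g '' U) = 0) : ∀ᵐ q ∂lam, q ∈ U →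
      DifferentiableAt ℝ g q ∧ (fderiv ℝ g q).det = 0 := by
  have h1 := hg.ae_differentiableWithinAt_of_mem (μ := lam)
  let s : Set E := U ∩ ({q | DifferentiableAt ℝ g q} ∩ {q | (fderiv ℝ g q).det ≠ 0})
  have hs : MeasurableSet s := by
    refine hU.measurableSet.inter ((measurableSet_of_differentiableAt ℝ g).inter ?_)
    have h2 : Measurable fun q => (fderiv ℝ g q).det :=
      ContinuousLinearMap.continuous_det.measurable.comp (measurable_fderiv ℝ g)
    exact (measurableSet_eq_fun h2 measurable_const).compl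
  have h3 : lam s = 0 := null_of_image lam hs (g := g) (g' := fderiv ℝ g)
    (fun x hx => (DifferentiableAt.hasFDerivAt hx.2.1).hasFDerivWithinAt) (fun x hx => hx.2.2)
    (measure_mono_null (image_mono inter_subset_left) himg)
  have h4 : ∀ᵐ q ∂lam, q ∉ s := by
    rw [ae_iff]; simpa using h3
  filter_upwards [h1, h4] with q hq1 hq2 hqU
  have h5 : DifferentiableAt ℝ g q := (hq1 hqU).differentiableAt (hU.mem_nhds hqU)
  refine ⟨h5, ?_⟩
  by_contra h6
  exact hq2 ⟨hqU, h5, h6⟩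

end area

section
variable {X Γ E : Type} [TopologicalSpace X] [T2Space X]
  [Group Γ] [MulAction Γ X] [NormedAddCommGroup E] [NormedSpace ℝ E] [FiniteDimensional ℝ E]
  [MeasurableSpace E] [BorelSpace E]
  {dev : X → E} {hol : Γ →* (E ≃ᵃ[ℝ] E)} (lam : Measure E) [lam.IsAddHaarMeasure]

/-- **Equivariant maps have images of positive measure.** -/
theorem range_pos (D : AffData X Γ E dev hol) [SecondCountableTopology X] [Nonempty X]
    {F : X → E} (hF : LL dev F) (he : ∀ (γ : Γ) x, F (γ • x) = hol γ (F x)) :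
    lam (range F) ≠ 0 := by
  intro hnull
  set Z : X → E := fun x => F x - dev x with hZdef
  have hZ : VF dev hol Z := vf_of_map D hF he
  obtain ⟨m, c, ρ, hρc, hρ0, hρs, hρ1, hint, hsum⟩ := master lam D hZ
  have in1 : ∀ i, ball (c i).p (c i).r ⊆ ball (c i).p (4 * (c i).r) :=
    fun i => ball_subset_ball (by linarith [(c i).hr])
  have hYL : ∀ i, LipschitzOnWith (Real.toNNReal ((c i).L + 1)) (fun q => F ((c i).σ q))
      (ball (c i).p (c i).r) := by
    intro i
    refine LipschitzOnWith.of_dist_le_mul fun q hq q' hq' => ?_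
    rw [dist_eq_norm, dist_eq_norm]
    have h1 := (c i).lip q (in1 i hq) q' (in1 i hq')
    have h2 : F ((c i).σ q) - F ((c i).σ q') =
        (Z ((c i).σ q) - Z ((c i).σ q')) + (q - q') := by
      simp only [hZdef, (c i).sec.inv q (in1 i hq), (c i).sec.inv q' (in1 i hq')]
      abel
    rw [h2]
    have h3 : ((Real.toNNReal ((c i).L + 1) : ℝ≥0) : ℝ) = (c i).L + 1 :=
      Real.coe_toNNReal _ (by linarith [(c i).hL])
    rw [h3]
    calc ‖Z ((c i).σ q) - Z ((c i).σ q') + (q - q')‖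
        ≤ ‖Z ((c i).σ q) - Z ((c i).σ q')‖ + ‖q - q'‖ := norm_add_le _ _
      _ ≤ (c i).L * ‖q - q'‖ + ‖q - q'‖ := by gcongr
      _ = ((c i).L + 1) * ‖q - q'‖ := by ring
  have hval : ∀ i, ∀ᵐ q ∂lam, q ∈ ball (c i).p (c i).r →
      dt (fderiv ℝ (fun q => Z ((c i).σ q)) q) = 0 := by
    intro i
    have h1 := det_ae lam isOpen_ball (hYL i) (measure_mono_null (by
      rintro _ ⟨q, -, rfl⟩
      exact ⟨_, rfl⟩) hnull)
    filter_upwards [h1] with q hq hqb
    obtain ⟨h2, h3⟩ := hq hqb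
    have h4 : HasFDerivAt (fun q => Z ((c i).σ q))
        (fderiv ℝ (fun q => F ((c i).σ q)) q - ContinuousLinearMap.id ℝ E) q := by
      refine (h2.hasFDerivAt.sub (hasFDerivAt_id q)).congr_of_eventuallyEq ?_
      filter_upwards [isOpen_ball.mem_nhds hqb] with q' hq'
      show F ((c i).σ q') - dev ((c i).σ q') = F ((c i).σ q') - q'
      rw [(c i).sec.inv q' (in1 i hq')]
    rw [h4.fderiv]
    unfold dt
    rw [add_sub_cancel]
    exact h3
  have hnn : ∀ i, 0 ≤ᵐ[lam.restrict (ball (c i).p (c i).r)]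
      fun q => -((dt (fderiv ℝ (fun q => Z ((c i).σ q)) q) - 1) * ρ i ((c i).σ q)) := by
    intro i
    rw [EventuallyLE, ae_restrict_iff' isOpen_ball.measurableSet]
    filter_upwards [hval i] with q hq hqb
    rw [hq hqb]
    simpa using hρ0 i ((c i).σ q)
  have hz : ∀ i, ∫ q in ball (c i).p (c i).r,
      -((dt (fderiv ℝ (fun q => Z ((c i).σ q)) q) - 1) * ρ i ((c i).σ q)) ∂lam = 0 := by
    have h1 : ∑ i, ∫ q in ball (c i).p (c i).r,
      -((dt (fderiv ℝ (fun q => Z ((c i).σ q)) q) - 1) * ρ i ((c i).σ q)) ∂lam = 0 := by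
      simp only [integral_neg, Finset.sum_neg_distrib, hsum, neg_zero]
    intro i
    refine (Finset.sum_eq_zero_iff_of_nonneg fun j _ => ?_).1 h1 i (Finset.mem_univ i)
    exact integral_nonneg_of_ae (hnn j)
  obtain ⟨x⟩ := (inferInstance : Nonempty X)
  obtain ⟨γ, i, hi⟩ := hρ1 x
  obtain ⟨q0, hq0, hq0x⟩ := hρs i _ hi
  have h1 := (integral_eq_zero_iff_of_nonneg_ae (hnn i) (hint i).neg).1 (hz i)
  rw [EventuallyEq, ae_restrict_iff' isOpen_ball.measurableSet] at h1
  have hopen : IsOpen (ball (c i).p (c i).r ∩ (c i).σ ⁻¹' {x | ρ i x ≠ 0}) :=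
    ((c i).sec.cont.mono (in1 i)).isOpen_inter_preimage isOpen_ball
      (isOpen_ne_fun (hρc i) continuous_const)
  have hq0m : q0 ∈ ball (c i).p (c i).r ∩ (c i).σ ⁻¹' {x | ρ i x ≠ 0} := by
    refine ⟨hq0, ?_⟩
    show ρ i ((c i).σ q0) ≠ 0
    rw [hq0x]; exact hi
  have hpos := hopen.measure_pos lam ⟨q0, hq0m⟩
  refine hpos.ne' (measure_mono_null ?_ (ae_iff.1 (h1.and (hval i))))
  rintro q ⟨hqb, hqρ⟩ hcon
  have h2 := hcon.1 hqb
  rw [hcon.2 hqb] at h2
  simp only [Pi.zero_apply] at h2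
  apply hqρ
  linarith

end

section
variable {X Γ E : Type} [TopologicalSpace X] [T2Space X]
  [Group Γ] [MulAction Γ X] [NormedAddCommGroup E] [NormedSpace ℝ E] [FiniteDimensional ℝ E]
  {dev : X → E} {hol : Γ →* (E ≃ᵃ[ℝ] E)}
  {W : Type} [NormedAddCommGroup W] [NormedSpace ℝ W]

theorem aff_eq (T : W ≃ᵃ[ℝ] W) (v : W) : T v = T 0 + T.linear v := by
  have h := T.map_vadd 0 v
  rw [vadd_eq_add, vadd_eq_add, add_zero] at h
  rw [h, add_comm]

/-- averages of orbits of affine actions are equivariant -/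
theorem av_aff {ρ : X → ℝ} (hρ : Wt Γ dev ρ) (a : Γ →* (W ≃ᵃ[ℝ] W)) (p : W) (δ : Γ) (x : X) :
    av ρ (fun γ : Γ => a γ⁻¹ p) (δ • x) = a δ (av ρ (fun γ : Γ => a γ⁻¹ p) x) := by
  rw [av_shift]
  obtain ⟨F, hF⟩ := hρ.fin x
  have h1 : ∀ P : Γ → W, av ρ P x = ∑ γ ∈ F, ρ (γ • x) • P γ := fun P =>
    tsum_eq_sum fun γ hγ => by rw [hF γ hγ, zero_smul]
  have h2 : ∑ γ ∈ F, ρ (γ • x) = 1 := by
    rw [← hρ.sum x]
    exact (tsum_eq_sum fun γ hγ => hF γ hγ).symm
  rw [h1, h1, aff_eq (a δ) (∑ γ ∈ F, ρ (γ • x) • a γ⁻¹ p), map_sum]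
  have h3 : ∀ γ : Γ, a (γ * δ⁻¹)⁻¹ p = a δ 0 + (a δ).linear (a γ⁻¹ p) := by
    intro γ
    rw [mul_inv_rev, inv_inv, map_mul, ← aff_eq]
    rfl
  simp_rw [h3, smul_add, Finset.sum_add_distrib, ← Finset.sum_smul, h2, one_smul]
  congr 1
  refine Finset.sum_congr rfl fun γ _ => ?_
  exact ((a δ).linear.map_smul _ _).symm

/-- **Equivariant maps from convex sets have images of positive measure.** -/
theorem image_pos [MeasurableSpace E] [BorelSpace E] (lam : Measure E) [lam.IsAddHaarMeasure]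
    (D : AffData X Γ E dev hol) [SecondCountableTopology X] [Nonempty X]
    (a : Γ →* (W ≃ᵃ[ℝ] W)) {C : Set W} (hC : Convex ℝ C) (hne : C.Nonempty)
    (hinv : ∀ γ, ∀ w ∈ C, a γ w ∈ C) {f : W → E} (hf : LocallyLipschitzOn C f)
    (he : ∀ γ, ∀ w ∈ C, f (a γ w) = hol γ (f w)) : lam (f '' C) ≠ 0 := by
  obtain ⟨ρ, hρ⟩ := exists_wt D
  obtain ⟨p, hp⟩ := hne
  set h : X → W := fun x => av ρ (fun γ : Γ => a γ⁻¹ p) x with hh
  have hhC : ∀ x, h x ∈ C := fun x => av_mem hρ hC (fun γ => hinv γ⁻¹ p hp) x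
  have hhL : LL dev h := av_ll D hρ _
  have hF : LL dev (fun x => f (h x)) := by
    refine hhL.comp D.loc.continuous fun x => ?_
    obtain ⟨K, t, ht, hK⟩ := hf (hhC x)
    obtain ⟨V, hV, hVt⟩ := mem_nhdsWithin_iff_exists_mem_nhds_inter.1 ht
    refine ⟨V, hV, K, K.2, fun y hy z hz => ?_⟩
    have h1 := hK.dist_le_mul _ (hVt ⟨hy, hhC y⟩) _ (hVt ⟨hz, hhC z⟩)
    rwa [dist_eq_norm, dist_eq_norm] at h1
  have h1 := range_pos lam D hF fun γ x => by
    rw [← he γ _ (hhC x)]
    congr 1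
    exact av_aff hρ a p γ x
  intro h2
  refine h1 (measure_mono_null ?_ h2)
  rintro _ ⟨x, rfl⟩
  exact ⟨h x, hhC x, rfl⟩

end

section
variable {X Γ E : Type} [TopologicalSpace X] [T2Space X]
  [Group Γ] [MulAction Γ X] [NormedAddCommGroup E] [NormedSpace ℝ E] [FiniteDimensional ℝ E]
  {dev : X → E} {hol : Γ →* (E ≃ᵃ[ℝ] E)}

/-- the derivative of an equivariant map with nonsingular derivatives makes it a local
homeomorphism -/
theorem local_homeo (hloc : IsLocalHomeomorph dev) {F : X → E} {B : X → E →L[ℝ] E}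
    (hB : Continuous B) (h : ∀ x, CovDeriv dev F x (B x)) (hdet : ∀ x, (B x).det ≠ 0) :
    IsLocalHomeomorph F := by
  refine IsLocalHomeomorph.mk F fun x => ?_
  obtain ⟨σ, r, hr, S, hx, e, hxe, he, hes⟩ := sec_at hloc x
  have hdx : dev x ∈ ball (dev x) r := mem_ball_self hr
  have hder : ∀ᶠ q in 𝓝 (dev x), HasFDerivAt (fun q => F (σ q)) (B (σ q)) q := by
    filter_upwards [S.isOpen.mem_nhds hdx] with q hq
    exact CovDeriv.chart S hq (h _)
  have hcont : ContinuousAt (fun q => B (σ q)) (dev x) :=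
    (hB.continuousAt).comp (S.cont.continuousAt (S.isOpen.mem_nhds hdx))
  have hst := hasStrictFDerivAt_of_hasFDerivAt_of_continuousAt hder hcont
  have hst' : HasStrictFDerivAt (fun q => F (σ q))
      (((B (σ (dev x))).toContinuousLinearEquivOfDetNeZero (hdet _) : E ≃L[ℝ] E) : E →L[ℝ] E)
      (dev x) := hst
  let e2 := hst'.toOpenPartialHomeomorph (fun q => F (σ q))
  refine ⟨e.trans e2, ?_, ?_⟩
  · rw [OpenPartialHomeomorph.trans_source]
    refine ⟨hxe, ?_⟩
    show e x ∈ e2.source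
    rw [← he]
    exact hst'.mem_toOpenPartialHomeomorph_source
  · intro y hy
    rw [OpenPartialHomeomorph.trans_source] at hy
    show F y = e2 (e y)
    have h1 : e2 (e y) = F (σ (e y)) := rfl
    rw [h1, ← hes, e.left_inv hy.1]

/-- **Volume nonincreasing equivariant maps are developing maps.** -/
theorem rigid (D : AffData X Γ E dev hol) [SecondCountableTopology X] [Nonempty X] {F : X → E}
    (he : ∀ (γ : Γ) x, F (γ • x) = hol γ (F x)) {B : X → E →L[ℝ] E}
    (hB : Continuous B) (h : ∀ x, CovDeriv dev F x (B x)) {ε : ℝ} (hε : ε ≠ 0)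
    (hs : ∀ x, 0 ≤ ε * ((B x).det - 1)) : (∀ x, (B x).det = 1) ∧ IsLocalHomeomorph F := by
  have h1 : ∀ x, (B x).det = 1 := by
    have h2 : ∀ x, CovDeriv dev (fun x => F x - dev x) x (B x - ContinuousLinearMap.id ℝ E) := by
      intro x
      refine (h x).congr_left fun y => ?_
      show _ = F y - dev y - (F x - dev x) - (B x (dev y - dev x) - (dev y - dev x))
      abel
    have h3 : ∀ x, dt (B x - ContinuousLinearMap.id ℝ E) = (B x).det := fun x => by
      unfold dt; rw [add_sub_cancel]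
    intro x
    rw [← h3]
    exact sign_principle D (Z := fun x => F x - dev x)
      (fun γ x => by rw [he, D.equi, hol_sub]) (by fun_prop) h2 hε (fun y => by
        rw [h3]; exact hs y) x
  exact ⟨h1, local_homeo D.loc hB h fun x => by rw [h1]; exact one_ne_zero⟩

end

end Pool.Agent.Q138.Mk
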