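import Pool.Agent.W689.Mk.Prin2
import Pool.Agent.Q138.Mk.Eig

set_option autoImplicit false

open Set Filter Topology MeasureTheory Metric Asymptotics
open scoped ENNReal NNReal

namespace Pool.Agent.Q138.Mk

open Pool.Agent.W689.Mk

section
variable {X E W : Type} [TopologicalSpace X] [T2Space X] [NormedAddCommGroup E] [NormedSpace ℝ E]
  [NormedAddCommGroup W] [NormedSpace ℝ W]

/-- `A` is the covariant derivative of `Z` at `x` -/
def CovDeriv (dev : X → E) (Z : X → W) (x : X) (A : E →L[ℝ] W) : Prop :=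
  (fun y => Z y - Z x - A (dev y - dev x)) =o[𝓝 x] fun y => dev y - dev x

theorem CovDeriv.chart {dev : X → E} {Z : X → W} {A : E →L[ℝ] W} {U : Set E} {σ : E → X}
    (S : Sec dev U σ) {q : E} (hq : q ∈ U) (h : CovDeriv dev Z (σ q) A) :
    HasFDerivAt (fun q => Z (σ q)) A q := by
  rw [hasFDerivAt_iff_isLittleO]
  have h1 : Tendsto σ (𝓝 q) (𝓝 (σ q)) := S.cont.continuousAt (S.isOpen.mem_nhds hq)
  have h2 := h.comp_tendsto h1
  refine h2.congr' ?_ ?_
  · filter_upwards [S.isOpen.mem_nhds hq] with p hp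
    simp only [Function.comp_apply, S.inv p hp, S.inv q hq]
  · filter_upwards [S.isOpen.mem_nhds hq] with p hp
    simp only [Function.comp_apply, S.inv p hp, S.inv q hq]

theorem sec_at {dev : X → E} (hloc : IsLocalHomeomorph dev) (x : X) :
    ∃ (σ : E → X) (r : ℝ), 0 < r ∧ Sec dev (ball (dev x) r) σ ∧ σ (dev x) = x ∧
      ∃ e : OpenPartialHomeomorph X E, x ∈ e.source ∧ dev = e ∧ ⇑e.symm = σ := by
  obtain ⟨e, hx, he⟩ := hloc x
  have h1 : e.target ∈ 𝓝 (dev x) := by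
    rw [he]
    exact e.open_target.mem_nhds (e.map_source hx)
  obtain ⟨r, hr, hrt⟩ := Metric.mem_nhds_iff.1 h1
  refine ⟨e.symm, r, hr, sec_of_target e he _ r hrt, ?_, e, hx, he, rfl⟩
  rw [he]; exact e.left_inv hx

/-- functions with continuous derivative are locally Lipschitz -/
theorem ll_of_c1 {dev : X → E} (hloc : IsLocalHomeomorph dev) {Z : X → W} {A : X → E →L[ℝ] W}
    (hA : Continuous A) (h : ∀ x, CovDeriv dev Z x (A x)) : LL dev Z := by
  intro x
  obtain ⟨σ, r, hr, S, hx, e, hxe, he, hes⟩ := sec_at hloc x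
  have hdx : dev x ∈ ball (dev x) r := mem_ball_self hr
  have h1 : ContinuousAt (fun q => ‖A (σ q)‖) (dev x) :=
    (hA.norm.continuousAt).comp (S.cont.continuousAt (S.isOpen.mem_nhds hdx))
  have h2 : ∀ᶠ q in 𝓝 (dev x), ‖A (σ q)‖ < ‖A x‖ + 1 := by
    have h3 : ‖A (σ (dev x))‖ < ‖A x‖ + 1 := by rw [hx]; linarith
    exact h1.eventually_lt continuousAt_const h3
  obtain ⟨s, hs, hs2⟩ := Metric.eventually_nhds_iff_ball.1 (h2.and (S.isOpen.mem_nhds hdx))
  have hdev : Continuous dev := hloc.continuous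
  refine ⟨e.source ∩ dev ⁻¹' ball (dev x) s, Filter.inter_mem (e.open_source.mem_nhds hxe)
    (hdev.continuousAt.preimage_mem_nhds (ball_mem_nhds _ hs)), ‖A x‖ + 1,
    by positivity, fun y hy z hz => ?_⟩
  have hσ : ∀ y ∈ e.source, σ (dev y) = y := fun y hy => by
    rw [he, ← hes]; exact e.left_inv hy
  have h4 := Convex.norm_image_sub_le_of_norm_hasFDerivWithin_le (𝕜 := ℝ)
    (f := fun q => Z (σ q)) (f' := fun q => A (σ q)) (C := ‖A x‖ + 1) (s := ball (dev x) s)
    (x := dev z) (y := dev y)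
    (fun q hq => ((CovDeriv.chart S (hs2 q hq).2 (h (σ q))).hasFDerivWithinAt))
    (fun q hq => (hs2 q hq).1.le) (convex_ball _ _) hz.2 hy.2
  beta_reduce at h4
  rw [hσ y hy.1, hσ z hz.1] at h4
  exact h4

end

section
variable {X Γ E : Type} [TopologicalSpace X] [T2Space X]
  [Group Γ] [MulAction Γ X] [NormedAddCommGroup E] [NormedSpace ℝ E] [FiniteDimensional ℝ E]
  {dev : X → E} {hol : Γ →* (E ≃ᵃ[ℝ] E)}

/-- the linear holonomy as a continuous linear map -/
noncomputable def lc (hol : Γ →* (E ≃ᵃ[ℝ] E)) (γ : Γ) : E →L[ℝ] E :=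
  LinearMap.toContinuousLinearMap ((hol γ).linear : E →ₗ[ℝ] E)

theorem lc_apply (γ : Γ) (v : E) : lc hol γ v = lin hol γ v := rfl

/-- the covariant derivative of an invariant field is invariant -/
theorem deriv_smul (D : AffData X Γ E dev hol) {Z : X → E}
    (hZ : ∀ (γ : Γ) x, Z (γ • x) = lin hol γ (Z x)) {A : X → E →L[ℝ] E}
    (h : ∀ x, CovDeriv dev Z x (A x)) (γ : Γ) (x : X) :
    A (γ • x) = (lc hol γ).comp ((A x).comp (lc hol γ⁻¹)) := by
  obtain ⟨σ, r, hr, S, hx, -⟩ := sec_at D.loc x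
  have hdx : dev x ∈ ball (dev x) r := mem_ball_self hr
  have S' := D.sec_smul γ S
  have hq : hol γ (dev x) ∈ hol γ '' ball (dev x) r := ⟨_, hdx, rfl⟩
  have hx' : γ • σ (hol γ⁻¹ (hol γ (dev x))) = γ • x := by rw [hol_inv_apply, hx]
  have h1 := CovDeriv.chart (Z := Z) (A := A (γ • x)) S' hq (by
    beta_reduce
    rw [hx']; exact h (γ • x))
  have h2 := CovDeriv.chart (Z := Z) (A := A x) S hdx (by rw [hx]; exact h x)
  have h3 : HasFDerivAt (fun p => hol γ⁻¹ p) (lc hol γ⁻¹) (hol γ (dev x)) := by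
    have h4 : (fun p => hol γ⁻¹ p) = fun p => lc hol γ⁻¹ p + hol γ⁻¹ 0 := by
      funext p
      have h5 := hol_sub (hol := hol) γ⁻¹ p 0
      rw [sub_zero] at h5
      rw [lc_apply, ← h5, sub_add_cancel]
    rw [h4]
    exact (lc hol γ⁻¹).hasFDerivAt.add_const _
  have h5 : HasFDerivAt (fun q => Z (σ q)) (A x) (hol γ⁻¹ (hol γ (dev x))) := by
    rw [hol_inv_apply]; exact h2
  have h6 := h5.comp (hol γ (dev x)) h3
  have h7 := (lc hol γ).hasFDerivAt.comp (hol γ (dev x)) h6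
  have h8 : (⇑(lc hol γ) ∘ (fun q => Z (σ q)) ∘ fun p => hol γ⁻¹ p) =
      fun p => Z (γ • σ (hol γ⁻¹ p)) := by
    funext p
    simp only [Function.comp_apply, hZ, lc_apply]
  rw [h8] at h7
  exact h1.unique h7

theorem det_smul' (D : AffData X Γ E dev hol) {Z : X → E}
    (hZ : ∀ (γ : Γ) x, Z (γ • x) = lin hol γ (Z x)) {A : X → E →L[ℝ] E}
    (h : ∀ x, CovDeriv dev Z x (A x)) (γ : Γ) (x : X) : dt (A (γ • x)) = dt (A x) := by
  rw [deriv_smul D hZ h γ x]
  have h1 : ContinuousLinearMap.id ℝ E + (lc hol γ).comp ((A x).comp (lc hol γ⁻¹)) =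
      (lc hol γ).comp ((ContinuousLinearMap.id ℝ E + A x).comp (lc hol γ⁻¹)) := by
    ext v
    simp only [add_apply, ContinuousLinearMap.comp_apply,
      ContinuousLinearMap.id_apply, map_add, lc_apply]
    have h2 := lin_inv_apply (hol := hol) γ⁻¹ v
    rw [inv_inv] at h2
    rw [h2]
  have h2 : ∀ P Q : E →L[ℝ] E, (P.comp Q).det = P.det * Q.det := fun P Q =>
    LinearMap.det_comp _ _
  unfold dt
  rw [h1, h2, h2, ← mul_assoc, mul_comm ((lc hol γ).det), mul_assoc, ← h2]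
  have h3 : (lc hol γ).comp (lc hol γ⁻¹) = ContinuousLinearMap.id ℝ E := by
    ext v
    have h2 := lin_inv_apply (hol := hol) γ⁻¹ v
    rw [inv_inv] at h2
    exact h2
  rw [h3]
  have h4 : (ContinuousLinearMap.id ℝ E).det = 1 := LinearMap.det_id
  rw [h4, mul_one]

/-- **Sign principle.** -/
theorem sign_principle (D : AffData X Γ E dev hol) [SecondCountableTopology X] [Nonempty X]
    {Z : X → E} (hZ : ∀ (γ : Γ) x, Z (γ • x) = lin hol γ (Z x)) {A : X → E →L[ℝ] E}
    (hA : Continuous A) (h : ∀ x, CovDeriv dev Z x (A x)) {ε : ℝ} (hε : ε ≠ 0)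
    (hs : ∀ x, 0 ≤ ε * (dt (A x) - 1)) (x : X) : dt (A x) = 1 := by
  let : MeasurableSpace E := borel E
  have : BorelSpace E := ⟨rfl⟩
  let lam : Measure E := Measure.addHaar
  obtain ⟨m, c, ρ, hρc, hρ0, hρs, hρ1, hint, hsum⟩ := master lam D ⟨ll_of_c1 D.loc hA h, hZ⟩
  have in1 : ∀ i, ball (c i).p (c i).r ⊆ ball (c i).p (4 * (c i).r) :=
    fun i => ball_subset_ball (by linarith [(c i).hr])
  have hd : ∀ i, ∀ q ∈ ball (c i).p (c i).r, fderiv ℝ (fun q => Z ((c i).σ q)) q = A ((c i).σ q) :=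
    fun i q hq => (CovDeriv.chart (c i).sec (in1 i hq) (h _)).fderiv
  have hdc : Continuous fun x => dt (A x) := dt_cont.comp hA
  have hnn : ∀ i, 0 ≤ᵐ[lam.restrict (ball (c i).p (c i).r)]
      fun q => ε * ((dt (fderiv ℝ (fun q => Z ((c i).σ q)) q) - 1) * ρ i ((c i).σ q)) := by
    intro i
    rw [EventuallyLE, ae_restrict_iff' isOpen_ball.measurableSet]
    refine ae_of_all _ fun q hq => ?_
    rw [hd i q hq, ← mul_assoc]
    exact mul_nonneg (hs _) (hρ0 i _)
  have hz : ∀ i, ∫ q in ball (c i).p (c i).r,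
      ε * ((dt (fderiv ℝ (fun q => Z ((c i).σ q)) q) - 1) * ρ i ((c i).σ q)) ∂lam = 0 := by
    have h1 : ∑ i, ∫ q in ball (c i).p (c i).r,
      ε * ((dt (fderiv ℝ (fun q => Z ((c i).σ q)) q) - 1) * ρ i ((c i).σ q)) ∂lam = 0 := by
      simp only [integral_const_mul, ← Finset.mul_sum, hsum, mul_zero]
    intro i
    refine (Finset.sum_eq_zero_iff_of_nonneg fun j _ => ?_).1 h1 i (Finset.mem_univ i)
    exact integral_nonneg_of_ae (hnn j)
  obtain ⟨γ, i, hi⟩ := hρ1 x
  obtain ⟨q0, hq0, hq0x⟩ := hρs i _ hi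
  have h1 := (integral_eq_zero_iff_of_nonneg_ae (hnn i) ((hint i).const_mul ε)).1 (hz i)
  rw [EventuallyEq, ae_restrict_iff' isOpen_ball.measurableSet] at h1
  rw [← det_smul' D hZ h γ x]
  by_contra hcon
  have hopen : IsOpen (ball (c i).p (c i).r ∩ (c i).σ ⁻¹' ({x | dt (A x) ≠ 1} ∩ {x | ρ i x ≠ 0})) :=
    ((c i).sec.cont.mono (in1 i)).isOpen_inter_preimage isOpen_ball
      ((isOpen_ne_fun hdc continuous_const).inter (isOpen_ne_fun (hρc i) continuous_const))
  have hq0m : q0 ∈ ball (c i).p (c i).r ∩ (c i).σ ⁻¹' ({x | dt (A x) ≠ 1} ∩ {x | ρ i x ≠ 0}) := by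
    refine ⟨hq0, ?_, ?_⟩
    · show dt (A ((c i).σ q0)) ≠ 1
      rw [hq0x]; exact hcon
    · show ρ i ((c i).σ q0) ≠ 0
      rw [hq0x]; exact hi
  have hpos := hopen.measure_pos lam ⟨q0, hq0m⟩
  refine hpos.ne' (measure_mono_null ?_ (ae_iff.1 h1))
  rintro q ⟨hqb, hq1, hq2⟩ hc
  have h2 := hc hqb
  rw [hd i q hqb] at h2
  simp only [Pi.zero_apply, mul_eq_zero] at h2
  rcases h2 with h2 | h2 | h2
  · exact hε h2
  · exact hq1 (by linarith)
  · exact hq2 h2

theorem smul_deriv {Z : X → E} {A : X → E →L[ℝ] E} (h : ∀ x, CovDeriv dev Z x (A x)) (t : ℝ)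
    (x : X) : CovDeriv dev (fun x => t • Z x) x (t • A x) := by
  have h1 := (h x).const_smul_left t
  refine h1.congr_left fun y => ?_
  simp only [Pi.smul_apply, smul_sub]
  rfl

theorem smul_equi {Z : X → E} (hZ : ∀ (γ : Γ) x, Z (γ • x) = lin hol γ (Z x)) (t : ℝ) :
    ∀ (γ : Γ) x, t • Z (γ • x) = lin hol γ (t • Z x) := fun γ x => by
  rw [hZ]
  exact ((hol γ).linear.map_smul t (Z x)).symm

/-- **Disc principle.** If no eigenvalue of the covariant derivative lies in an open disc whose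
centre is real and whose boundary contains `0`, then the covariant derivative is nilpotent. -/
theorem disc_principle (D : AffData X Γ E dev hol) [SecondCountableTopology X] [ConnectedSpace X]
    {Z : X → E} (hZ : ∀ (γ : Γ) x, Z (γ • x) = lin hol γ (Z x)) {A : X → E →L[ℝ] E}
    (hA : Continuous A) (h : ∀ x, CovDeriv dev Z x (A x)) {c : ℝ} (hc : c ≠ 0)
    (hd : ∀ x, ∀ z : ℂ, ((A x : E →ₗ[ℝ] E).charpoly.map (algebraMap ℝ ℂ)).IsRoot z → |c| ≤ ‖z - c‖)
    (x : X) : IsNilpotent (A x : E →ₗ[ℝ] E) := by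
  have hdt : ∀ (t : ℝ) (x : X), dt (t • A x) =
      LinearMap.det (LinearMap.id + t • (A x : E →ₗ[ℝ] E)) := fun _ _ => rfl
  have h1 : ∀ x, 1 ≤ |dt ((-c⁻¹) • A x)| := fun x => by
    rw [hdt]; exact (disc _ hc (hd x)).1
  have hcont : Continuous fun x => dt ((-c⁻¹) • A x) := dt_cont.comp (by fun_prop)
  have hAt : Continuous fun x => (-c⁻¹) • A x := by fun_prop
  have hne : ∀ x, dt ((-c⁻¹) • A x) ≠ 0 := fun x h0 => by
    have := h1 x
    rw [h0, abs_zero] at this
    linarith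
  have hone : ∀ x, dt ((-c⁻¹) • A x) = 1 := by
    by_cases hpos : ∃ x, 0 < dt ((-c⁻¹) • A x)
    · obtain ⟨x0, hx0⟩ := hpos
      have h2 : ∀ x, 1 ≤ dt ((-c⁻¹) • A x) := by
        intro x
        by_contra hcon
        have h3 : dt ((-c⁻¹) • A x) ≤ 0 := by
          rcases abs_cases (dt ((-c⁻¹) • A x)) with ⟨h4, _⟩ | ⟨_, h4⟩
          · exfalso; have := h1 x; linarith
          · exact h4.le
        obtain ⟨y, hy⟩ := mem_range_of_exists_le_of_exists_ge hcont ⟨x, h3⟩ ⟨x0, hx0.le⟩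
        exact hne y hy
      exact sign_principle D (smul_equi hZ _) hAt (smul_deriv h _) (ε := 1) one_ne_zero
        fun x => by have := h2 x; linarith
    · push Not at hpos
      exact sign_principle D (smul_equi hZ _) hAt (smul_deriv h _) (ε := -1)
        (by norm_num) fun x => by have := hpos x; linarith
  have hcirc : ∀ x, ∀ z : ℂ, ((A x : E →ₗ[ℝ] E).charpoly.map (algebraMap ℝ ℂ)).IsRoot z →
      0 ≤ c * z.re := fun x z hz => by
    have h2 := (disc _ hc (hd x)).2 (by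
      have := hone x
      rw [hdt] at this
      rw [this, abs_one]) z hz
    exact re_of_circle h2
  rcases lt_or_gt_of_ne hc with hneg | hpos
  · have hr : ∀ x, RightHalf (((-1 : ℝ) • A x : E →L[ℝ] E) : E →ₗ[ℝ] E) := by
      intro x z hz
      have h2 : (((-1 : ℝ) • A x : E →L[ℝ] E) : E →ₗ[ℝ] E) = -(A x : E →ₗ[ℝ] E) := by
        ext v; simp
      rw [h2] at hz
      have h3 := hcirc x _ (root_neg hz)
      rw [Complex.neg_re] at h3
      nlinarith
    have h2 := sign_principle D (smul_equi hZ (-1)) (A := fun x => (-1 : ℝ) • A x) (by fun_prop)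
      (smul_deriv h _) (ε := 1) one_ne_zero (fun x => by
        have h5 : 1 ≤ dt ((-1 : ℝ) • A x) := one_le_det (hr x)
        linarith) x
    have h3 := nilpotent_of_det (hr x) h2
    have h4 : (A x : E →ₗ[ℝ] E) = -(((-1 : ℝ) • A x : E →L[ℝ] E) : E →ₗ[ℝ] E) := by
      ext v; simp
    rw [h4]
    exact h3.neg
  · have hr : ∀ x, RightHalf ((A x : E →L[ℝ] E) : E →ₗ[ℝ] E) := by
      intro x z hz
      have h3 := hcirc x _ hz
      nlinarith
    have h2 := sign_principle D hZ hA h (ε := 1) one_ne_zero (fun x => by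
        have h5 : 1 ≤ dt (A x) := one_le_det (hr x)
        linarith) x
    exact nilpotent_of_det (hr x) h2

end

end Pool.Agent.Q138.Mk
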